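import Pool.Agent.Lib_helper82.T12.Defs

set_option autoImplicit false

namespace Pool.Agent.T12

open Finset Filter Topology
open Pool.Agent.LK (PQ)

theorem c6_three {q : ℕ} [NeZero q] {χ : DirichletCharacter ℂ q} (h : PQ χ) : 3 ≤ q := by
  by_contra hlt
  have hq0 : q ≠ 0 := NeZero.ne q
  have h12 : q = 1 ∨ q = 2 := by omega
  apply h.ne
  have hs : Subsingleton (ZMod q)ˣ := by
    rcases h12 with rfl | rfl
    · infer_instance
    · infer_instance
  apply MulChar.ext
  intro a
  rw [Subsingleton.elim a 1]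
  simp

theorem c6_log {q : ℕ} [NeZero q] {χ : DirichletCharacter ℂ q} (h : PQ χ) : 1 ≤ Real.log q := by
  have h3 : (3 : ℝ) ≤ q := by exact_mod_cast c6_three h
  rw [Real.le_log_iff_exp_le (by linarith)]
  have := Real.exp_one_lt_d9
  linarith

theorem c6_zb_mono {P : ∀ {q : ℕ}, DirichletCharacter ℂ q → Prop} {B B' : ℝ} (h : B ≤ B')
    (hB : ZB P B) : ZB P B' := by
  obtain ⟨q₀, h0⟩ := hB
  refine ⟨q₀, fun q _ hq χ β hz hP => ?_⟩
  refine le_trans ?_ (h0 q hq χ β hz hP)
  exact Real.rpow_le_rpow_of_exponent_le (c6_log hz.pq) (by linarith)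

theorem C6_pr (h0 : P0) (h4 : P4) (h5 : P5) : C6 := by
  intro P
  obtain ⟨c₀, hc₀, h0⟩ := h0
  obtain ⟨C, hC, c, hc, h4⟩ := h4
  obtain ⟨c', hc', h5⟩ := h5 c hc
  constructor
  · rintro ⟨B, q₀, hB⟩
    set B' : ℝ := max B 1 with hB'
    have hB1 : 1 ≤ B' := le_max_right _ _
    have hBB : B ≤ B' := le_max_left _ _
    refine ⟨B', min c' (min (1 / 8) (c₀ / (8 * (q₀ + 1)))), by positivity, fun q _ χ hχ hP => ?_⟩
    have hl := c6_log hχ
    have hl0 : (0 : ℝ) < Real.log q := by linarith
    set m : ℝ := min c' (min (1 / 8) (c₀ / (8 * (q₀ + 1)))) with hm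
    have hm0 : 0 < m := by positivity
    have e1 : Real.log q ^ (-B') ≤ 1 := by
      have := Real.rpow_le_rpow_of_exponent_le hl (show -B' ≤ 0 by linarith)
      rwa [Real.rpow_zero] at this
    have e2 : Real.log q ^ (-B') ≤ (Real.log q)⁻¹ := by
      have := Real.rpow_le_rpow_of_exponent_le hl (show -B' ≤ -1 by linarith)
      rwa [Real.rpow_neg_one] at this
    have e3 : Real.log q ^ (-B') ≤ Real.log q ^ (-B) :=
      Real.rpow_le_rpow_of_exponent_le hl (by linarith)
    have e0 : 0 < Real.log q ^ (-B') := Real.rpow_pos_of_pos hl0 _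
    by_cases hall : ∀ β : ℝ, RZ χ β → c < (1 - β) * Real.log q
    · refine le_trans ?_ (h5 q χ hχ hall)
      rw [div_eq_mul_inv]
      exact mul_le_mul (min_le_left _ _) e2 e0.le hc'.le
    · push Not at hall
      obtain ⟨β, hz, hβ⟩ := hall
      refine le_trans ?_ (h4 q χ β hz hβ).1
      by_cases hq : q₀ ≤ q
      · have h1 := hB q hq χ β hz hP
        have h2 : m ≤ 1 / 8 := (min_le_right _ _).trans (min_le_left _ _)
        calc m * Real.log q ^ (-B') ≤ 1 / 8 * Real.log q ^ (-B) :=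
              mul_le_mul h2 e3 e0.le (by norm_num)
          _ ≤ (1 - β) / 8 := by linarith
      · have h1 := h0 q χ β hz
        have h2 : m ≤ c₀ / (8 * (q₀ + 1)) := (min_le_right _ _).trans (min_le_right _ _)
        have hqr : (q : ℝ) ≤ q₀ + 1 := by
          have : q ≤ q₀ + 1 := by omega
          exact_mod_cast this
        have hq0 : (0 : ℝ) < q := by exact_mod_cast Nat.pos_of_ne_zero (NeZero.ne q)
        calc m * Real.log q ^ (-B') ≤ c₀ / (8 * (q₀ + 1)) * 1 :=
              mul_le_mul h2 e1 e0.le (by positivity)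
          _ = c₀ / (q₀ + 1) / 8 := by field_simp
          _ ≤ c₀ / q / 8 := by
              apply div_le_div_of_nonneg_right _ (by norm_num)
              exact div_le_div_of_nonneg_left hc₀.le hq0 hqr
          _ ≤ (1 - β) / 8 := by linarith
  · rintro ⟨B, c₁, hc₁, hB⟩
    set B' : ℝ := max (B + 2) 1 with hB'
    have hB1 : 1 ≤ B' := le_max_right _ _
    have hBB : B + 2 ≤ B' := le_max_left _ _
    set m : ℝ := min (c₁ / C) c with hm
    have hC0 : 0 < C := by linarith
    have hm0 : 0 < m := by positivity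
    refine ⟨B' + 1, ⌈Real.exp (1 / m)⌉₊, fun q _ hq χ β hz hP => ?_⟩
    have hl := c6_log hz.pq
    have hl0 : (0 : ℝ) < Real.log q := by linarith
    have hq0 : (0 : ℝ) < q := by exact_mod_cast Nat.pos_of_ne_zero (NeZero.ne q)
    have hlm : 1 / m ≤ Real.log q := by
      rw [Real.le_log_iff_exp_le hq0]
      exact (Nat.le_ceil _).trans (by exact_mod_cast hq)
    have hml : (Real.log q)⁻¹ ≤ m := by
      rw [inv_le_comm₀ hl0 hm0, ← one_div]
      exact hlm
    have e0 : 0 < Real.log q ^ (-B') := Real.rpow_pos_of_pos hl0 _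
    have e1 : Real.log q ^ (-(B' + 1)) ≤ m * Real.log q ^ (-B') := by
      have : -(B' + 1) = -1 + -B' := by ring
      rw [this, Real.rpow_add hl0, Real.rpow_neg_one]
      exact mul_le_mul_of_nonneg_right hml e0.le
    refine e1.trans ?_
    by_cases hβ : (1 - β) * Real.log q ≤ c
    · have h1 := hB q χ hz.pq hP
      have h2 := (h4 q χ β hz hβ).2
      have e3 : Real.log q ^ (-B') ≤ Real.log q ^ (-(B + 2)) :=
        Real.rpow_le_rpow_of_exponent_le hl (by linarith)
      have e4 : Real.log q ^ (-(B + 2)) * Real.log q ^ 2 = Real.log q ^ (-B) := by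
        rw [← Real.rpow_natCast (Real.log q) 2, ← Real.rpow_add hl0]
        congr 1
        push_cast
        ring
      have e5 : c₁ * (Real.log q ^ (-(B + 2)) * Real.log q ^ 2) ≤ C * (1 - β) * Real.log q ^ 2 := by
        rw [e4]; exact h1.trans h2
      have e6 : c₁ * Real.log q ^ (-(B + 2)) ≤ C * (1 - β) := by
        have hp : 0 < Real.log q ^ 2 := by positivity
        have : c₁ * Real.log q ^ (-(B + 2)) * Real.log q ^ 2 ≤ C * (1 - β) * Real.log q ^ 2 := by
          rw [mul_assoc]; exact e5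
        exact le_of_mul_le_mul_right this hp
      calc m * Real.log q ^ (-B') ≤ c₁ / C * Real.log q ^ (-(B + 2)) :=
            mul_le_mul (min_le_left _ _) e3 e0.le (by positivity)
        _ = c₁ * Real.log q ^ (-(B + 2)) / C := by ring
        _ ≤ 1 - β := by rw [div_le_iff₀ hC0]; linarith
    · push Not at hβ
      have e2 : Real.log q ^ (-B') ≤ (Real.log q)⁻¹ := by
        have := Real.rpow_le_rpow_of_exponent_le hl (show -B' ≤ -1 by linarith)
        rwa [Real.rpow_neg_one] at this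
      calc m * Real.log q ^ (-B') ≤ c * (Real.log q)⁻¹ :=
            mul_le_mul (min_le_right _ _) e2 e0.le hc.le
        _ = c / Real.log q := by rw [div_eq_mul_inv]
        _ ≤ 1 - β := by rw [div_le_iff₀ hl0]; exact hβ.le

theorem C7_pr (p : PF) (hm : Mono p) (h1 : C1 p) (h2 : C2 p) (h6 : C6) : C7 p := by
  constructor
  · rintro ⟨A, c, N₀, hA, hc, h⟩
    rw [← h6 Any]
    set A' : ℝ := max A 1 with hA'
    have hA1 : 1 ≤ A' := le_max_right _ _
    refine ⟨A' + 1 / 2 + 1, ?_⟩
    by_contra hn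
    obtain ⟨N, hN, hN0, hN1⟩ := h2 A' 1 (by linarith) one_pos hn (c / 2) (by linarith) (max N₀ 3)
    haveI : Fact N.Prime := ⟨hN⟩
    have e1 := h N ((le_max_left _ _).trans hN0)
    have e2 := hm A A' N ((le_max_right _ _).trans hN0) (le_max_left _ _)
    have e3 : p A' N - 1 / 2 ≤ c / 2 := (le_abs_self _).trans hN1
    linarith
  · intro hB
    rw [← h6 Any] at hB
    obtain ⟨B, hB⟩ := hB
    have hB' := c6_zb_mono (le_max_left B 1) hB
    have hA1 : (1 : ℝ) ≤ max B 1 := le_max_right _ _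
    obtain ⟨c, N₀, hc, h⟩ := h1 (max B 1 + 1 / 2) 1 (by linarith) one_pos
      (by
        have : max B 1 + 1 / 2 + 1 / 2 - 1 = max B 1 := by ring
        rw [this]; exact hB')
    exact ⟨max B 1 + 1 / 2, c, N₀, by linarith, hc, h⟩

theorem c8_cp_nonneg (P : ℕ → Prop) (X : ℕ) : 0 ≤ cp P X := by
  unfold cp; positivity

theorem c8_pix {X : ℕ} (hX : 5 ≤ X) : 3 ≤ pix X := by
  classical
  unfold pix cp
  have h : ({2, 3, 5} : Finset ℕ) ⊆ (range (X + 1)).filter (fun n => n.Prime ∧ True) := by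
    intro n hn
    simp only [mem_insert, mem_singleton] at hn
    rw [mem_filter, mem_range]
    rcases hn with rfl | rfl | rfl
    · exact ⟨by omega, by norm_num, trivial⟩
    · exact ⟨by omega, by norm_num, trivial⟩
    · exact ⟨by omega, by norm_num, trivial⟩
  have h2 := card_le_card h
  have h3 : ({2, 3, 5} : Finset ℕ).card = 3 := by decide
  rw [h3] at h2
  have h4 : (3 : ℝ) ≤ (((range (X + 1)).filter (fun n => n.Prime ∧ True)).card : ℝ) := by
    exact_mod_cast h2
  convert h4

theorem c8_cover (P Q : ℕ → Prop) (X : ℕ) (h : ∀ n : ℕ, n.Prime → 3 ≤ n → P n ∨ Q n) :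
    pix X ≤ cp P X + cp Q X + 1 := by
  classical
  unfold pix cp
  have h1 : (range (X + 1)).filter (fun n => n.Prime ∧ True) ⊆
      (range (X + 1)).filter (fun n => n.Prime ∧ P n) ∪
        (range (X + 1)).filter (fun n => n.Prime ∧ Q n) ∪ {2} := by
    intro n hn
    rw [mem_filter] at hn
    obtain ⟨hr, hp, -⟩ := hn
    by_cases h3 : 3 ≤ n
    · rcases h n hp h3 with h4 | h4
      · exact mem_union_left _ (mem_union_left _ (mem_filter.2 ⟨hr, hp, h4⟩))
      · exact mem_union_left _ (mem_union_right _ (mem_filter.2 ⟨hr, hp, h4⟩))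
    · have := hp.two_le
      exact mem_union_right _ (mem_singleton.2 (by omega))
  have h2 := (card_le_card h1).trans (card_union_le _ _)
  have h3 := h2.trans (Nat.add_le_add_right (card_union_le _ _) _)
  rw [card_singleton] at h3
  have h4 : ((((range (X + 1)).filter (fun n => n.Prime ∧ True)).card : ℕ) : ℝ) ≤
      (((range (X + 1)).filter (fun n => n.Prime ∧ P n)).card : ℝ) +
        (((range (X + 1)).filter (fun n => n.Prime ∧ Q n)).card : ℝ) + 1 := by
    exact_mod_cast h3
  convert h4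

theorem C8_pr (p : PF) (hm : Mono p) (h3 : C3 p) (h4 : C4 p) (h6 : C6) : C8 p := by
  constructor
  · rintro ⟨A, c, hA, hc, h⟩
    rw [← h6 (fun χ => χ.Odd)]
    set A' : ℝ := max A 1 with hA'
    have hA1 : 1 ≤ A' := le_max_right _ _
    refine ⟨A' + 1 / 2 + 1, ?_⟩
    by_contra hn
    obtain ⟨X₁, hX₁⟩ := h (1 / 4) (by norm_num)
    obtain ⟨X, hX, hX2⟩ := h4 A' 1 (by linarith) one_pos hn (c / 2) (by linarith) (1 / 4)
      (by norm_num) (max X₁ 5)
    have e1 := hX₁ X ((le_max_left _ _).trans hX)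
    have e2 := c8_pix ((le_max_right _ _).trans hX)
    have e3 := c8_cover (fun n => ¬ ∀ h : n.Prime, 1 / 2 + c ≤ @p A n ⟨h⟩)
      (fun n => ¬ ∀ h : n.Prime, |@p A' n ⟨h⟩ - 1 / 2| ≤ c / 2) X (by
        intro n hp hn3
        by_contra hcon
        rw [not_or, not_not, not_not] at hcon
        obtain ⟨f1, f2⟩ := hcon
        haveI : Fact n.Prime := ⟨hp⟩
        have g1 := f1 hp
        have g2 := f2 hp
        have g3 := hm A A' n hn3 (le_max_left _ _)
        have g4 : p A' n - 1 / 2 ≤ c / 2 := (le_abs_self _).trans g2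
        linarith)
    linarith
  · intro hB
    rw [← h6 (fun χ => χ.Odd)] at hB
    obtain ⟨B, hB⟩ := hB
    have hB' := c6_zb_mono (le_max_left B 1) hB
    have hA1 : (1 : ℝ) ≤ max B 1 := le_max_right _ _
    obtain ⟨c, hc, h⟩ := h3 (max B 1 + 1 / 2) 1 (by linarith) one_pos
      (by
        have : max B 1 + 1 / 2 + 1 / 2 - 1 = max B 1 := by ring
        rw [this]; exact hB')
    exact ⟨max B 1 + 1 / 2, c, by linarith, hc, h⟩

end Pool.Agent.T12
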