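import Pool.Agent.Lib_helper82.T12.Defs
import Pool.Agent.Lib_helper59.DH.M1
import Pool.Agent.Lib_helper15.EXC.XC

set_option autoImplicit false

namespace Pool.Agent.T12

open Finset Filter Topology
open Pool.Agent.LK (PQ)
open Pool.Agent.GA (LF LF_diff)
open Pool.Agent.DHP (rx Lr ff ff_nonneg ff_one hyp tail seg zs zs_le sqrt_facts rx_abs tail_C)

/-- the constant in the sum of `m ^ (-β)` is not positive -/
theorem p5_kappa {β κ : ℝ} (hβ0 : 0 < β) (hβ : β < 1)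
    (hzs : ∀ N d : ℕ, 1 ≤ d → d ≤ N →
      |∑ m ∈ Icc 1 (N / d), (m : ℝ) ^ (-β) - ((N : ℝ) / d) ^ (1 - β) / (1 - β) - κ| ≤
        2 * ((N : ℝ) / d) ^ (-β)) : κ ≤ 0 := by
  have hlim : Tendsto (fun N : ℕ => 2 * (N : ℝ) ^ (-β)) atTop (𝓝 (2 * 0)) :=
    (((tendsto_rpow_neg_atTop hβ0).comp tendsto_natCast_atTop_atTop)).const_mul 2
  rw [mul_zero] at hlim
  refine ge_of_tendsto hlim ?_
  filter_upwards [eventually_ge_atTop 1] with N hN
  have h1 := hzs N 1 le_rfl hN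
  have h2 := zs_le hβ0.le hβ N
  rw [Nat.div_one, Nat.cast_one, div_one] at h1
  have h3 := (abs_le.1 h1).1
  linarith

theorem p5_up {q : ℕ} [NeZero q] {χ : DirichletCharacter ℂ q} (hχ : χ ≠ 1) {β : ℝ}
    (hβ : 3 / 4 ≤ β) (hβ1 : β < 1) (hz : 0 ≤ Lr χ β) {N : ℕ} (hN : 1 ≤ N) :
    ∑ n ∈ Icc 1 N, ff χ n * (n : ℝ) ^ (-β) ≤
      (N : ℝ) ^ (1 - β) / (1 - β) * (Lr χ 1 + 18 * q * (N : ℝ) ^ (-(1 / 4) : ℝ)) := by
  obtain ⟨hy1, hyN, hy2, hy3⟩ := sqrt_facts hN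
  set y : ℕ := Nat.sqrt N with hy
  have hyR : (1 : ℝ) ≤ y := by exact_mod_cast hy1
  have hNR : (1 : ℝ) ≤ N := by exact_mod_cast hN
  have hN0 : (0 : ℝ) < N := by linarith
  have hy0 : (0 : ℝ) < y := by linarith
  have h1β : 0 < 1 - β := by linarith
  have hqR : (1 : ℝ) ≤ q := by exact_mod_cast (NeZero.pos q)
  obtain ⟨κ, hκ, hzs⟩ := zs (by linarith : (0 : ℝ) ≤ β) hβ1
  have hκ0 : κ ≤ 0 := p5_kappa (by linarith) hβ1 hzs
  set T : ℝ := (N : ℝ) ^ (1 - β) / (1 - β) with hT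
  have hNp : 1 ≤ (N : ℝ) ^ (1 - β) := Real.one_le_rpow hNR h1β.le
  have hT1 : 1 / (1 - β) ≤ T := div_le_div_of_nonneg_right hNp h1β.le
  have hT2 : 1 ≤ T := by
    refine le_trans ?_ hT1
    rw [le_div_iff₀ h1β]
    linarith
  have hT0 : 0 ≤ T := by linarith
  rw [hyp χ β hy1 hyN]
  -- the first part
  have e1 : |∑ d ∈ Icc 1 y, rx χ d * (d : ℝ) ^ (-β) * ∑ m ∈ Icc 1 (N / d), (m : ℝ) ^ (-β) -
      (T * ∑ d ∈ Icc 1 y, rx χ d * (d : ℝ) ^ (-1 : ℝ) +
        κ * ∑ d ∈ Icc 1 y, rx χ d * (d : ℝ) ^ (-β))| ≤ 2 * y * (N : ℝ) ^ (-β) := by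
    have h1 : ∑ d ∈ Icc 1 y, rx χ d * (d : ℝ) ^ (-β) * ∑ m ∈ Icc 1 (N / d), (m : ℝ) ^ (-β) -
      (T * ∑ d ∈ Icc 1 y, rx χ d * (d : ℝ) ^ (-1 : ℝ) +
        κ * ∑ d ∈ Icc 1 y, rx χ d * (d : ℝ) ^ (-β)) =
        ∑ d ∈ Icc 1 y, rx χ d * (d : ℝ) ^ (-β) * (∑ m ∈ Icc 1 (N / d), (m : ℝ) ^ (-β) -
          ((N : ℝ) / d) ^ (1 - β) / (1 - β) - κ) := by
      rw [mul_sum, mul_sum, ← sum_add_distrib, ← sum_sub_distrib]
      refine sum_congr rfl fun d hd => ?_
      have hd0 : (0 : ℝ) < d := by exact_mod_cast (mem_Icc.1 hd).1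
      have h2 : ((N : ℝ) / d) ^ (1 - β) = (N : ℝ) ^ (1 - β) * ((d : ℝ) ^ (-1 : ℝ) / (d : ℝ) ^ (-β))
          := by
        rw [Real.div_rpow hN0.le hd0.le, div_eq_mul_inv, ← Real.rpow_neg hd0.le,
          ← Real.rpow_sub hd0]
        congr 2
        ring
      rw [h2, hT]
      have h3 : (d : ℝ) ^ (-β) ≠ 0 := (Real.rpow_pos_of_pos hd0 _).ne'
      field_simp
      ring
    rw [h1]
    refine (abs_sum_le_sum_abs _ _).trans ?_
    calc ∑ d ∈ Icc 1 y, |rx χ d * (d : ℝ) ^ (-β) * (∑ m ∈ Icc 1 (N / d), (m : ℝ) ^ (-β) -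
          ((N : ℝ) / d) ^ (1 - β) / (1 - β) - κ)| ≤ ∑ d ∈ Icc 1 y, 2 * (N : ℝ) ^ (-β) := by
          refine sum_le_sum fun d hd => ?_
          obtain ⟨hd1, hd2⟩ := mem_Icc.1 hd
          have hd0 : (0 : ℝ) < d := by exact_mod_cast hd1
          have h2 := hzs N d hd1 (hd2.trans hyN)
          have h3 : 0 ≤ (d : ℝ) ^ (-β) := Real.rpow_nonneg hd0.le _
          rw [abs_mul, abs_mul, abs_of_nonneg h3]
          calc |rx χ d| * (d : ℝ) ^ (-β) * _ ≤ 1 * (d : ℝ) ^ (-β) * (2 * ((N : ℝ) / d) ^ (-β)) :=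
                mul_le_mul (mul_le_mul_of_nonneg_right (rx_abs χ d) h3) h2 (abs_nonneg _)
                  (by positivity)
            _ = 2 * (N : ℝ) ^ (-β) := by
                rw [Real.div_rpow hN0.le hd0.le]
                have : (d : ℝ) ^ (-β) ≠ 0 := (Real.rpow_pos_of_pos hd0 _).ne'
                field_simp
      _ = 2 * y * (N : ℝ) ^ (-β) := by
          rw [sum_const, nsmul_eq_mul, Nat.card_Icc, Nat.add_sub_cancel]
          ring
  have e2 := tail hχ (by norm_num : (0 : ℝ) < 1) hy1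
  have e3 := tail hχ (by linarith : (0 : ℝ) < β) hy1
  -- the second part
  have e4 : |∑ m ∈ Icc 1 (N / y), (m : ℝ) ^ (-β) * ∑ d ∈ Ioc y (N / m), rx χ d * (d : ℝ) ^ (-β)| ≤
      4 * q * (y : ℝ) ^ (-β) * T := by
    refine (abs_sum_le_sum_abs _ _).trans ?_
    calc ∑ m ∈ Icc 1 (N / y), |(m : ℝ) ^ (-β) * ∑ d ∈ Ioc y (N / m), rx χ d * (d : ℝ) ^ (-β)| ≤
        ∑ m ∈ Icc 1 (N / y), (m : ℝ) ^ (-β) * (4 * q * (y : ℝ) ^ (-β)) := by
          refine sum_le_sum fun m _ => ?_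
          have h3 : 0 ≤ (m : ℝ) ^ (-β) := Real.rpow_nonneg (Nat.cast_nonneg m) _
          rw [abs_mul, abs_of_nonneg h3]
          exact mul_le_mul_of_nonneg_left (seg hχ (by linarith) hy1 _) h3
      _ = (∑ m ∈ Icc 1 (N / y), (m : ℝ) ^ (-β)) * (4 * q * (y : ℝ) ^ (-β)) := by rw [sum_mul]
      _ ≤ T * (4 * q * (y : ℝ) ^ (-β)) := by
          apply mul_le_mul_of_nonneg_right _ (by positivity)
          refine (zs_le (by linarith) hβ1 (N / y)).trans ?_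
          apply div_le_div_of_nonneg_right _ h1β.le
          apply Real.rpow_le_rpow (Nat.cast_nonneg _) _ h1β.le
          exact_mod_cast Nat.div_le_self N y
      _ = _ := by ring
  -- the sizes
  set E : ℝ := (N : ℝ) ^ (-(1 / 4) : ℝ) with hE
  have hE0 : 0 ≤ E := Real.rpow_nonneg hN0.le _
  have b1 : (y : ℝ) ^ (-β) ≤ 2 * E := by
    have h1 : (y : ℝ) ^ (-β) ≤ ((N : ℝ) ^ (1 / 2 : ℝ) / 2) ^ (-β) :=
      Real.rpow_le_rpow_of_nonpos (by positivity) (by linarith) (by linarith)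
    refine h1.trans ?_
    rw [Real.div_rpow (by positivity) (by norm_num), ← Real.rpow_mul hN0.le, div_eq_mul_inv,
      mul_comm]
    have h10 : ((2 : ℝ) ^ (-β))⁻¹ ≤ 2 := by
      rw [← Real.rpow_neg (by norm_num), neg_neg]
      calc (2 : ℝ) ^ β ≤ 2 ^ (1 : ℝ) :=
            Real.rpow_le_rpow_of_exponent_le (by norm_num) hβ1.le
        _ = 2 := Real.rpow_one 2
    refine mul_le_mul h10 ?_ (Real.rpow_nonneg hN0.le _) (by norm_num)
    exact Real.rpow_le_rpow_of_exponent_le hNR (by linarith)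
  have b2 : (y : ℝ) ^ (-1 : ℝ) ≤ 2 * E := by
    have h1 : (y : ℝ) ^ (-1 : ℝ) ≤ (y : ℝ) ^ (-β) :=
      Real.rpow_le_rpow_of_exponent_le hyR (by linarith)
    exact h1.trans b1
  have b3 : (y : ℝ) * (N : ℝ) ^ (-β) ≤ E := by
    calc (y : ℝ) * (N : ℝ) ^ (-β) ≤ (N : ℝ) ^ (1 / 2 : ℝ) * (N : ℝ) ^ (-β) :=
          mul_le_mul_of_nonneg_right hy2 (Real.rpow_nonneg hN0.le _)
      _ = (N : ℝ) ^ (1 / 2 - β) := by
          rw [← Real.rpow_add hN0]
          congr 1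
      _ ≤ E := Real.rpow_le_rpow_of_exponent_le hNR (by linarith)
  have hqE0 : 0 ≤ q * E := mul_nonneg (by linarith) hE0
  have c1 : T * (2 * q * (y : ℝ) ^ (-1 : ℝ)) ≤ T * (4 * q * E) := by
    apply mul_le_mul_of_nonneg_left _ hT0
    have := mul_le_mul_of_nonneg_left b2 (by linarith : (0 : ℝ) ≤ 2 * q)
    linarith
  have c2 : κ * ∑ d ∈ Icc 1 y, rx χ d * (d : ℝ) ^ (-β) ≤ T * (4 * q * E) := by
    have h1 : κ * ∑ d ∈ Icc 1 y, rx χ d * (d : ℝ) ^ (-β) ≤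
        |κ * (∑ d ∈ Icc 1 y, rx χ d * (d : ℝ) ^ (-β) - Lr χ β)| := by
      have h2 : κ * Lr χ β ≤ 0 := mul_nonpos_of_nonpos_of_nonneg hκ0 hz
      have h3 := le_abs_self (κ * (∑ d ∈ Icc 1 y, rx χ d * (d : ℝ) ^ (-β) - Lr χ β))
      rw [mul_sub] at h3
      rw [mul_sub]
      linarith
    refine h1.trans ?_
    rw [abs_mul]
    apply mul_le_mul (hκ.trans hT1) _ (abs_nonneg _) hT0
    refine e3.trans ?_
    have := mul_le_mul_of_nonneg_left b1 (by linarith : (0 : ℝ) ≤ 2 * q)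
    linarith
  have c3 : 2 * y * (N : ℝ) ^ (-β) ≤ T * (2 * q * E) := by
    have h1 : E ≤ q * E := le_mul_of_one_le_left hE0 hqR
    have h2 : q * E ≤ T * (q * E) := le_mul_of_one_le_left hqE0 hT2
    have h3 : 2 * y * (N : ℝ) ^ (-β) = 2 * ((y : ℝ) * (N : ℝ) ^ (-β)) := by ring
    have h4 : T * (2 * q * E) = 2 * (T * (q * E)) := by ring
    rw [h3, h4]
    linarith
  have c4 : 4 * q * (y : ℝ) ^ (-β) * T ≤ T * (8 * q * E) := by
    have h1 := mul_le_mul_of_nonneg_left b1 (by linarith : (0 : ℝ) ≤ 4 * q)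
    have h2 : 4 * q * (y : ℝ) ^ (-β) ≤ 8 * q * E := by linarith
    have h3 := mul_le_mul_of_nonneg_right h2 hT0
    linarith
  have c5 : T * ∑ d ∈ Icc 1 y, rx χ d * (d : ℝ) ^ (-1 : ℝ) ≤
      T * (Lr χ 1 + 2 * q * (y : ℝ) ^ (-1 : ℝ)) := by
    apply mul_le_mul_of_nonneg_left _ hT0
    rw [abs_le] at e2
    linarith
  rw [abs_le] at e1 e4
  have hfin : T * (Lr χ 1 + 18 * q * E) = T * (Lr χ 1 + 2 * q * (y : ℝ) ^ (-1 : ℝ)) -
      T * (2 * q * (y : ℝ) ^ (-1 : ℝ)) + T * (4 * q * E) + T * (4 * q * E) + T * (2 * q * E) +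
        T * (8 * q * E) := by ring
  rw [hfin]
  linarith [e1.2, e4.2, c2]

/-- real values -/
theorem p5_im {q : ℕ} [NeZero q] {χ : DirichletCharacter ℂ q} (hχ : χ ≠ 1) (h2 : χ ^ 2 = 1)
    {s : ℝ} (hs : 0 < s) : (LF χ (s : ℂ)).im = 0 := by
  have hlim : Tendsto (fun N : ℕ => 2 * (q : ℝ) * (N : ℝ) ^ (-s)) atTop (𝓝 (2 * (q : ℝ) * 0)) :=
    (((tendsto_rpow_neg_atTop hs).comp tendsto_natCast_atTop_atTop)).const_mul (2 * (q : ℝ))
  rw [mul_zero] at hlim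
  have h1 : |(LF χ (s : ℂ)).im| ≤ 0 := by
    refine ge_of_tendsto hlim ?_
    filter_upwards [eventually_ge_atTop 1] with N hN
    have h3 := tail_C hχ hs hN
    have h4 := (Complex.abs_im_le_norm _).trans h3
    rw [Complex.sub_im, Complex.im_sum] at h4
    have h5 : ∑ n ∈ Icc 1 N, (χ (n : ZMod q) * (n : ℂ) ^ (-(s : ℂ))).im = 0 := by
      refine sum_eq_zero fun n hn => ?_
      have hn0 : (0 : ℝ) ≤ n := Nat.cast_nonneg n
      have h6 : (n : ℂ) ^ (-(s : ℂ)) = (((n : ℝ) ^ (-s) : ℝ) : ℂ) := by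
        rw [Complex.ofReal_cpow hn0]
        push_cast
        rfl
      rw [h6, Complex.im_mul_ofReal, Pool.Agent.EXC.xa_val h2, zero_mul]
    rw [h5, zero_sub, abs_neg] at h4
    exact h4
  exact abs_eq_zero.1 (le_antisymm h1 (abs_nonneg _))

theorem p5_LF {q : ℕ} [NeZero q] (χ : DirichletCharacter ℂ q) (s : ℂ) :
    LF χ s = DirichletCharacter.LFunction χ s := by
  unfold LF
  rw [dif_neg (NeZero.ne q)]

/-- no zero in `[β, 1]`: `L(β, χ) ≥ 0` -/
theorem p5_nonneg {q : ℕ} [NeZero q] {χ : DirichletCharacter ℂ q} (h : PQ χ) {β : ℝ}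
    (hβ0 : 0 < β) (hβ : β < 1) (hno : ∀ b : ℝ, RZ χ b → b < β) : 0 ≤ Lr χ β := by
  by_contra hneg
  push Not at hneg
  have hc : Continuous (fun x : ℝ => Lr χ x) := by
    unfold Lr
    exact Complex.continuous_re.comp
      ((LF_diff h.ne).continuous.comp Complex.continuous_ofReal)
  obtain ⟨l, hl, hl1⟩ := Pool.Agent.EXC.xc_one h.ne h.sq
  have h1 : 0 < Lr χ 1 := by
    unfold Lr
    rw [Complex.ofReal_one, hl1, Complex.ofReal_re]
    exact hl
  have h2 := intermediate_value_Icc hβ.le hc.continuousOn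
  obtain ⟨b, hb, hb0⟩ := h2 ⟨hneg.le, h1.le⟩
  have hb1 : b < 1 := by
    refine lt_of_le_of_ne hb.2 ?_
    rintro rfl
    exact h1.ne' hb0
  have hbβ : β < b := by
    refine lt_of_le_of_ne hb.1 ?_
    rintro rfl
    exact hneg.ne hb0
  have hz : LF χ (b : ℂ) = 0 := by
    apply Complex.ext
    · exact hb0
    · exact p5_im h.ne h.sq (by linarith)
  have := hno b ⟨h, hb1, by rw [← p5_LF]; exact hz⟩
  linarith

/-- the constants -/
theorem p5_const {c : ℝ} (hc : 0 < c) (hc1 : c ≤ 1 / 16) :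
    36 * Real.exp (c * (9 + 4 * Real.log ((72 / c) ^ 2))) ≤ c * (72 / c) ^ 2 := by
  have h72 : 1 ≤ 72 / c := by rw [le_div_iff₀ hc]; linarith
  have h0 : 0 < 72 / c := by positivity
  have hl : 0 ≤ Real.log (72 / c) := Real.log_nonneg h72
  have h1 : Real.log ((72 / c) ^ 2) = 2 * Real.log (72 / c) := by
    rw [Real.log_pow]; norm_num
  have h2 : c * (9 + 4 * Real.log ((72 / c) ^ 2)) ≤ 9 / 16 + Real.log (72 / c) := by
    rw [h1]
    nlinarith
  have h3 : Real.exp (c * (9 + 4 * Real.log ((72 / c) ^ 2))) ≤ 2 * (72 / c) := by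
    refine (Real.exp_le_exp.2 h2).trans ?_
    rw [Real.exp_add, Real.exp_log h0]
    apply mul_le_mul_of_nonneg_right _ h0.le
    have h4 : Real.exp (9 / 16) ≤ 2 := by
      have h5 : (9 / 16 : ℝ) ≤ Real.log 2 := by
        have := Real.log_two_gt_d9
        linarith
      calc Real.exp (9 / 16) ≤ Real.exp (Real.log 2) := Real.exp_le_exp.2 h5
        _ = 2 := Real.exp_log (by norm_num)
    exact h4
  calc 36 * Real.exp (c * (9 + 4 * Real.log ((72 / c) ^ 2))) ≤ 36 * (2 * (72 / c)) := by linarith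
    _ = c * (72 / c) ^ 2 := by field_simp; norm_num

theorem P5_pr : P5 := by
  intro c₀ hc₀
  set c : ℝ := min c₀ (1 / 16) with hcdef
  have hc : 0 < c := by positivity
  have hc1 : c ≤ 1 / 16 := min_le_right _ _
  have hcc : c ≤ c₀ := min_le_left _ _
  set K : ℝ := (72 / c) ^ 2 with hK
  have h72 : 1 ≤ 72 / c := by rw [le_div_iff₀ hc]; linarith
  have hK1 : 1 ≤ K := one_le_pow₀ h72
  have hK0 : 0 < K := by linarith
  have hlK : 0 ≤ Real.log K := Real.log_nonneg hK1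
  set K₂ : ℝ := Real.exp (c * (9 + 4 * Real.log K)) with hK₂
  have hK₂0 : 0 < K₂ := Real.exp_pos _
  have hconst : 36 * K₂ ≤ c * K := p5_const hc hc1
  refine ⟨c / (2 * K₂), by positivity, fun q _ χ hχ hno => ?_⟩
  -- `log q ≥ 1`
  have hq3 : 3 ≤ q := Pool.Agent.GA.three_le hχ.ne
  have hq3R : (3 : ℝ) ≤ q := by exact_mod_cast hq3
  have hq0 : (0 : ℝ) < q := by linarith
  have hl : 1 ≤ Real.log q := by
    rw [Real.le_log_iff_exp_le hq0]
    have := Real.exp_one_lt_d9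
    linarith
  set l : ℝ := Real.log q with hldef
  have hl0 : 0 < l := by linarith
  set β : ℝ := 1 - c / l with hβdef
  have hcl : c / l ≤ 1 / 16 := by
    rw [div_le_iff₀ hl0]
    nlinarith
  have hcl0 : 0 < c / l := by positivity
  have hβ1 : β < 1 := by linarith
  have hβ34 : 3 / 4 ≤ β := by linarith
  have h1β : 1 - β = c / l := by rw [hβdef]; ring
  have hL : 0 ≤ Lr χ β := by
    refine p5_nonneg hχ (by linarith) hβ1 fun b hb => ?_
    have h1 := hno b hb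
    by_contra hlt
    push Not at hlt
    have h2 : (1 - b) * l ≤ (1 - β) * l := mul_le_mul_of_nonneg_right (by linarith) hl0.le
    rw [h1β, div_mul_cancel₀ _ hl0.ne'] at h2
    linarith
  -- the choice of `N`
  set x : ℝ := K * q * l with hx
  have hx1 : 1 ≤ x := by
    have : 1 ≤ K * q := by nlinarith
    nlinarith
  have hx0 : 0 < x := by linarith
  set N : ℕ := ⌈x ^ 4⌉₊ with hN
  have hx4 : 1 ≤ x ^ 4 := one_le_pow₀ hx1
  have hNx : x ^ 4 ≤ N := Nat.le_ceil _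
  have hNx2 : (N : ℝ) ≤ 2 * x ^ 4 := by
    have := (Nat.ceil_lt_add_one (by positivity : 0 ≤ x ^ 4)).le
    linarith
  have hN1R : (1 : ℝ) ≤ N := hx4.trans hNx
  have hN1 : 1 ≤ N := by exact_mod_cast hN1R
  have hN0 : (0 : ℝ) < N := by linarith
  have hE : (N : ℝ) ^ (-(1 / 4) : ℝ) ≤ x⁻¹ := by
    calc (N : ℝ) ^ (-(1 / 4) : ℝ) ≤ (x ^ 4) ^ (-(1 / 4) : ℝ) :=
          Real.rpow_le_rpow_of_nonpos (by positivity) hNx (by norm_num)
      _ = x⁻¹ := by
          rw [← Real.rpow_natCast x 4, ← Real.rpow_mul hx0.le]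
          norm_num
          exact Real.rpow_neg_one x
  have hlogN : Real.log N ≤ (9 + 4 * Real.log K) * l := by
    have h1 : Real.log N ≤ Real.log (2 * x ^ 4) := Real.log_le_log hN0 hNx2
    have h2 : Real.log (2 * x ^ 4) = Real.log 2 + 4 * (Real.log K + l + Real.log l) := by
      rw [Real.log_mul (by norm_num) (by positivity), Real.log_pow, hx,
        Real.log_mul (by positivity) hl0.ne', Real.log_mul hK0.ne' hq0.ne', ← hldef]
      norm_num
    have h3 : Real.log l ≤ l := by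
      have := Real.log_le_sub_one_of_pos hl0
      linarith
    have h4 : Real.log 2 ≤ 1 := by
      have := Real.log_two_lt_d9
      linarith
    have h5 : Real.log K ≤ Real.log K * l := by nlinarith
    nlinarith
  have hNp : (N : ℝ) ^ (1 - β) ≤ K₂ := by
    rw [Real.rpow_def_of_pos hN0, hK₂]
    apply Real.exp_le_exp.2
    rw [h1β]
    calc Real.log N * (c / l) ≤ (9 + 4 * Real.log K) * l * (c / l) :=
          mul_le_mul_of_nonneg_right hlogN hcl0.le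
      _ = c * (9 + 4 * Real.log K) := by field_simp
  set T : ℝ := (N : ℝ) ^ (1 - β) / (1 - β) with hT
  have hT0 : 0 < T := by
    have : 0 < (N : ℝ) ^ (1 - β) := Real.rpow_pos_of_pos hN0 _
    rw [hT, h1β]
    positivity
  have hTle : T ≤ K₂ * l / c := by
    have e : T = (N : ℝ) ^ (1 - β) * l / c := by
      have h9 : (N : ℝ) ^ (1 - β) / (1 - β) = (N : ℝ) ^ (1 - β) / (c / l) :=
        congrArg (fun t => (N : ℝ) ^ (1 - β) / t) h1β
      rw [hT, h9, div_div_eq_mul_div]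
    rw [e]
    apply div_le_div_of_nonneg_right _ hc.le
    exact mul_le_mul_of_nonneg_right hNp hl0.le
  have hone : 1 ≤ ∑ n ∈ Icc 1 N, ff χ n * (n : ℝ) ^ (-β) := by
    have h1 : ff χ 1 * ((1 : ℕ) : ℝ) ^ (-β) ≤ ∑ n ∈ Icc 1 N, ff χ n * (n : ℝ) ^ (-β) := by
      refine single_le_sum (f := fun n : ℕ => ff χ n * (n : ℝ) ^ (-β)) (fun n _ => ?_)
        (mem_Icc.2 ⟨le_rfl, hN1⟩)
      exact mul_nonneg (ff_nonneg hχ.sq n) (Real.rpow_nonneg (Nat.cast_nonneg n) _)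
    rw [ff_one, Nat.cast_one, Real.one_rpow, mul_one] at h1
    exact h1
  have hup := hone.trans (p5_up hχ.ne hβ34 hβ1 hL hN1)
  rw [← hT, mul_add] at hup
  have herr : T * (18 * q * (N : ℝ) ^ (-(1 / 4) : ℝ)) ≤ 1 / 2 := by
    calc T * (18 * q * (N : ℝ) ^ (-(1 / 4) : ℝ)) ≤ (K₂ * l / c) * (18 * q * x⁻¹) := by
          apply mul_le_mul hTle _ (by positivity) (by positivity)
          exact mul_le_mul_of_nonneg_left hE (by positivity)
      _ = 18 * K₂ / (c * K) := by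
          rw [hx]
          field_simp
      _ ≤ 1 / 2 := by
          rw [div_le_iff₀ (by positivity)]
          linarith
  have hL1 : 1 / 2 ≤ T * Lr χ 1 := by linarith
  have hLpos : 0 ≤ Lr χ 1 := by
    by_contra hneg
    push Not at hneg
    nlinarith
  have h5 : 1 / 2 ≤ K₂ * l / c * Lr χ 1 := hL1.trans (mul_le_mul_of_nonneg_right hTle hLpos)
  have h6 : c / (2 * K₂) / l ≤ Lr χ 1 := by
    rw [div_div, div_le_iff₀ (by positivity)]
    have h7 : 1 / 2 * c ≤ K₂ * l / c * Lr χ 1 * c := mul_le_mul_of_nonneg_right h5 hc.le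
    have h8 : K₂ * l / c * Lr χ 1 * c = K₂ * l * Lr χ 1 := by field_simp
    rw [h8] at h7
    linarith
  refine h6.trans ?_
  have h9 : Lr χ 1 = (DirichletCharacter.LFunction χ 1).re := by
    unfold Lr
    rw [p5_LF, Complex.ofReal_one]
  rw [h9]
  exact (Complex.re_le_norm _)

end Pool.Agent.T12
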